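import Pool.Agent.MP_868529_lc.Graph

/-!
# Subgraphs of butterfly networks give De Bruijn labelings
-/

namespace Pool.MP_868529_lc

/-- the word `s 1^K 0^K` -/
def zw (R K : ℕ) (s : ℕ → Bool) (q : ℕ) : Bool :=
  if q < R then s q else if q < R + K then true else false

/-- rotations of the words `s 1^K 0^K` determine the rotation and the word -/
theorem zw_rotate (R K : ℕ) (hK : R ≤ K) (hK1 : 1 ≤ K) (s s' : ℕ → Bool) (a b : ℕ) (ha : a ≤ R)
    (hb : b ≤ R)
    (h : ∀ q < R + 2 * K, zw R K s ((q + a) % (R + 2 * K)) = zw R K s' ((q + b) % (R + 2 * K))) :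
    a = b ∧ ∀ r < R, s r = s' r := by
  have key : ∀ (s s' : ℕ → Bool) (a b : ℕ), a ≤ R → b ≤ R → a < b →
      (∀ q < R + 2 * K, zw R K s ((q + a) % (R + 2 * K)) = zw R K s' ((q + b) % (R + 2 * K))) →
      False := by
    intro s s' a b ha hb hab h
    have h1 := h (R + K - 1 - a) (by omega)
    have e1 : (R + K - 1 - a + a) % (R + 2 * K) = R + K - 1 := by
      rw [Nat.sub_add_cancel (by omega), Nat.mod_eq_of_lt (by omega)]
    have e2 : (R + K - 1 - a + b) % (R + 2 * K) = R + K - 1 - a + b :=
      Nat.mod_eq_of_lt (by omega)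
    rw [e1, e2] at h1
    unfold zw at h1
    rw [if_neg (by omega), if_pos (by omega), if_neg (by omega), if_neg (by omega)] at h1
    exact absurd h1 (by simp)
  have hab : a = b := by
    rcases lt_trichotomy a b with hlt | heq | hgt
    · exact absurd h (fun h => key s s' a b ha hb hlt h)
    · exact heq
    · exact absurd h (fun h => key s' s b a hb ha hgt (fun q hq => (h q hq).symm))
  subst hab
  refine ⟨rfl, fun r hr => ?_⟩
  by_cases hra : a ≤ r
  · have h1 := h (r - a) (by omega)
    rw [Nat.sub_add_cancel hra, Nat.mod_eq_of_lt (by omega)] at h1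
    unfold zw at h1
    rw [if_pos hr, if_pos hr] at h1
    exact h1
  · have h1 := h (r + (R + 2 * K) - a) (by omega)
    have e1 : (r + (R + 2 * K) - a + a) % (R + 2 * K) = r := by
      rw [Nat.sub_add_cancel (by omega), Nat.add_mod_right, Nat.mod_eq_of_lt (by omega)]
    rw [e1] at h1
    unfold zw at h1
    rw [if_pos hr, if_pos hr] at h1
    exact h1

/-- a digraph whose vertices are arcs of a butterfly network, with the induced adjacencies, has a
De Bruijn labeling -/
theorem labeling_of_butterfly {V : Type} (A : V → V → Bool) (R : ℕ) (lev : V → ℕ)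
    (src tgt : V → ℕ → Bool) (hlev : ∀ e, lev e < R)
    (hagree : ∀ e r, r ≠ lev e → src e r = tgt e r)
    (hinj : ∀ e f, lev e = lev f → (∀ r < R, src e r = src f r) → (∀ r < R, tgt e r = tgt f r) →
      e = f)
    (hadj : ∀ e f, A e f = true ↔ lev f = lev e + 1 ∧ ∀ r < R, tgt e r = src f r) :
    ∃ k, 1 ≤ k ∧ ∃ L : V → Fin k → Bool, IsLabeling k A L := by
  set K := R + 1 with hK
  set T := R + 2 * K with hT
  have claim0 : ∀ e q, q < T →
      (if q < T then zw R K (src e) ((q + lev e) % T) else tgt e (lev e)) =
        zw R K (src e) ((q + lev e) % T) := fun e q hq => if_pos hq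
  have claim1 : ∀ e q, q < T →
      (if q + 1 < T then zw R K (src e) ((q + 1 + lev e) % T) else tgt e (lev e)) =
        zw R K (tgt e) ((q + (lev e + 1)) % T) := by
    intro e q hq
    have hl := hlev e
    by_cases hq1 : q + 1 < T
    · rw [if_pos hq1]
      have e1 : q + (lev e + 1) = q + 1 + lev e := by omega
      rw [e1]
      have hne : (q + 1 + lev e) % T ≠ lev e := by
        by_cases h2 : q + 1 + lev e < T
        · rw [Nat.mod_eq_of_lt h2]; omega
        · have e2 : q + 1 + lev e = (q + 1 + lev e - T) + T := by omega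
          rw [e2, Nat.add_mod_right, Nat.mod_eq_of_lt (by omega)]
          omega
      unfold zw
      split_ifs
      · exact hagree e _ hne
      · rfl
      · rfl
    · rw [if_neg hq1]
      have e1 : q + (lev e + 1) = lev e + T := by omega
      rw [e1, Nat.add_mod_right, Nat.mod_eq_of_lt (by omega)]
      unfold zw
      rw [if_pos hl]
  refine ⟨T + 1, by omega, fun e q => if (q : ℕ) < T then zw R K (src e) ((q + lev e) % T)
    else tgt e (lev e), ?_, ?_⟩
  · intro e f hef
    have h0 : ∀ q < T + 1, (if q < T then zw R K (src e) ((q + lev e) % T) else tgt e (lev e)) =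
        (if q < T then zw R K (src f) ((q + lev f) % T) else tgt f (lev f)) := fun q hq =>
      congrFun hef ⟨q, hq⟩
    have h1 : ∀ q < R + 2 * K, zw R K (src e) ((q + lev e) % (R + 2 * K)) =
        zw R K (src f) ((q + lev f) % (R + 2 * K)) := by
      intro q hq
      have := h0 q (by omega)
      rw [if_pos (by omega), if_pos (by omega)] at this
      exact this
    obtain ⟨h2, h3⟩ := zw_rotate R K (by omega) (by omega) _ _ _ _ (hlev e).le (hlev f).le h1
    have h4 : ∀ q < R + 2 * K, zw R K (tgt e) ((q + (lev e + 1)) % (R + 2 * K)) =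
        zw R K (tgt f) ((q + (lev f + 1)) % (R + 2 * K)) := by
      intro q hq
      rw [← hT, ← claim1 e q hq, ← claim1 f q hq]
      exact h0 (q + 1) (by omega)
    obtain ⟨h5, h6⟩ := zw_rotate R K (by omega) (by omega) _ _ _ _ (hlev e) (hlev f) h4
    exact hinj e f h2 h3 h6
  · intro e f
    rw [hadj]
    have key : (∀ (q : ℕ) (h : q + 1 < T + 1),
        (fun (q : Fin (T + 1)) => if (q : ℕ) < T then zw R K (src e) ((q + lev e) % T)
          else tgt e (lev e)) ⟨q + 1, h⟩ =
        (fun (q : Fin (T + 1)) => if (q : ℕ) < T then zw R K (src f) ((q + lev f) % T)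
          else tgt f (lev f)) ⟨q, by omega⟩) ↔
        ∀ q < R + 2 * K, zw R K (tgt e) ((q + (lev e + 1)) % (R + 2 * K)) =
          zw R K (src f) ((q + lev f) % (R + 2 * K)) := by
      constructor
      · intro h q hq
        have := h q (by omega)
        simp only at this
        rw [claim1 e q (by omega), claim0 f q (by omega)] at this
        exact this
      · intro h q hq
        have := h q (by omega)
        simp only
        rw [claim1 e q (by omega), claim0 f q (by omega)]
        exact this
    rw [key]
    constructor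
    · rintro ⟨h1, h2⟩ q hq
      rw [h1]
      unfold zw
      split_ifs with h3
      · exact h2 _ h3
      · rfl
      · rfl
    · intro h
      obtain ⟨h1, h2⟩ := zw_rotate R K (by omega) (by omega) _ _ _ _ (hlev e) (hlev f).le h
      exact ⟨h1.symm, h2⟩

end Pool.MP_868529_lc
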