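import Mathlib

/-!
# The graph `G` built from a graph `Γ` (4-colourability ⇔ induced subgraph of some `B(2,k)`)

`Γ` : symmetric irreflexive `adj : ℕ → ℕ → Bool` supported on `[0,2^m)`.
Vertices of `G` are the numbers `u < nV m`, decoded as tuples `(κ,i,c,p)`,
`κ < 3`, `i < 2^m`, `c < 2^m*2^m`, `p < 2*m+5`.
-/

namespace Pool.MP_868529_lc

/-- A binary labeling of length `k` of the digraph `A` on the type `V`: an injective map into the
words of length `k` over `Bool` such that `(u,v)` is an arc iff the last `k-1` letters of `L u`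
are the first `k-1` letters of `L v`. -/
def IsLabeling (k : ℕ) {V : Type} (A : V → V → Bool) (L : V → Fin k → Bool) : Prop :=
  Function.Injective L ∧
    ∀ u v, A u v = true ↔ ∀ (q : ℕ) (h : q + 1 < k), L u ⟨q + 1, h⟩ = L v ⟨q, by omega⟩

/-- arcs of `G`, on tuples. `κ = 0`: main path, `κ = 1`: side path, `κ = 2`: tree. -/
def arcT (P m : ℕ) (adj : ℕ → ℕ → Bool) (k i c p k' i' c' p' : ℕ) : Bool :=
  (k == 0 && k' == 0 && i == i' && c == c' && p' == p + 1 && decide (p' ≤ m + 3) && adj i c) ||
  (k == 0 && k' == 1 && p == 0 && p' == 0 && i == i' && c == c' && adj i c) ||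
  (k == 1 && k' == 1 && i == i' && c == c' && p' == p + 1 && decide (p' ≤ 3) && adj i c) ||
  (k == 1 && k' == 1 && i == c' && c == i' && p == 2 && p' == 3 && adj i c) ||
  (k == 0 && k' == 2 && p == m + 3 && p' == 0 && i == i' && c' == min i c * P + max i c
      && adj i c) ||
  (k == 2 && k' == 2 && i == i' && p' == p + 1 && c' == c / 2)

/-- number of vertices -/
def nV (P m : ℕ) : ℕ := 3 * P * (P * P) * (2 * m + 5)

/-- arcs of `G`, on numbers `< nV m` -/
def arc (P m : ℕ) (adj : ℕ → ℕ → Bool) (u v : ℕ) : Bool :=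
  arcT P m adj (u / (2 * m + 5) / (P * P) / P) (u / (2 * m + 5) / (P * P) % P)
    (u / (2 * m + 5) % (P * P)) (u % (2 * m + 5))
    (v / (2 * m + 5) / (P * P) / P) (v / (2 * m + 5) / (P * P) % P)
    (v / (2 * m + 5) % (P * P)) (v % (2 * m + 5))

/-- number of a tuple -/
def idx (P m κ i c p : ℕ) : ℕ := ((κ * P + i) * (P * P) + c) * (2 * m + 5) + p

section decode

theorem pmod {W t j : ℕ} (hj : j < W) : (t * W + j) % W = j := by
  rw [Nat.add_comm, Nat.add_mul_mod_self_right, Nat.mod_eq_of_lt hj]

theorem pdiv {W t j : ℕ} (hj : j < W) : (t * W + j) / W = t := by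
  rw [Nat.add_comm, Nat.add_mul_div_right _ _ (by omega), Nat.div_eq_of_lt hj, Nat.zero_add]

theorem plt {A W t j : ℕ} (ht : t < A) (hj : j < W) : t * W + j < A * W := by
  have : (t + 1) * W ≤ A * W := Nat.mul_le_mul_right _ ht
  rw [Nat.add_mul, Nat.one_mul] at this
  omega

variable {P m : ℕ}

theorem idx_lt {κ i c p : ℕ} (hκ : κ < 3) (hi : i < P) (hc : c < P * P) (hp : p < 2 * m + 5) :
    idx P m κ i c p < nV P m := plt (plt (plt hκ hi) hc) hp

theorem arc_idx (adj : ℕ → ℕ → Bool) {κ i c p κ' i' c' p' : ℕ}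
    (hi : i < P) (hc : c < P * P) (hp : p < 2 * m + 5)
    (hi' : i' < P) (hc' : c' < P * P) (hp' : p' < 2 * m + 5) :
    arc P m adj (idx P m κ i c p) (idx P m κ' i' c' p') = arcT P m adj κ i c p κ' i' c' p' := by
  unfold arc idx
  rw [pmod hp, pdiv hp, pmod hc, pdiv hc, pmod hi, pdiv hi, pmod hp', pdiv hp', pmod hc', pdiv hc',
    pmod hi', pdiv hi']

end decode

section toColoring

/-- a labeling gives a 4-colouring -/
theorem colorable_of_labeling (P m : ℕ) (hm : 1 ≤ m) (hP : P = 2 ^ m) (adj : ℕ → ℕ → Bool)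
    (hsymm : ∀ i j, adj i j = adj j i) (hirr : ∀ i, adj i i = false)
    (hlt : ∀ i j, adj i j = true → i < P)
    (k : ℕ) (L : Fin (nV P m) → Fin k → Bool)
    (hL : IsLabeling k (fun u v : Fin (nV P m) => arc P m adj u v) L) :
    ∃ col : ℕ → Bool × Bool, ∀ i j, adj i j = true → col i ≠ col j := by
  have hPpos : 0 < P := by rw [hP]; positivity
  -- lower bound for k
  have hk : 3 * m + 3 < k := by
    have hcard := Fintype.card_le_of_injective L hL.1
    simp only [Fintype.card_fin, Fintype.card_fun, Fintype.card_bool] at hcard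
    have h1 : 2 ^ (3 * m + 3) < 2 ^ k := by
      refine lt_of_lt_of_le ?_ hcard
      unfold nV
      have h2 : (2 : ℕ) ^ (3 * m + 3) = P * (P * P) * 8 := by
        rw [hP]; ring
      rw [h2]
      have h3 : 0 < P * (P * P) := by positivity
      nlinarith
    exact (Nat.pow_lt_pow_iff_right (by norm_num)).1 h1
  -- total labels
  let Lw : ℕ → ℕ → Bool := fun u q => if h : u < nV P m ∧ q < k then L ⟨u, h.1⟩ ⟨q, h.2⟩ else false
  have hLw : ∀ u (hu : u < nV P m) q (hq : q < k), Lw u q = L ⟨u, hu⟩ ⟨q, hq⟩ := fun u hu q hq =>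
    dif_pos ⟨hu, hq⟩
  have harc : ∀ u v, u < nV P m → v < nV P m →
      (arc P m adj u v = true ↔ ∀ q, q + 1 < k → Lw u (q + 1) = Lw v q) := by
    intro u v hu hv
    have := hL.2 ⟨u, hu⟩ ⟨v, hv⟩
    simp only at this
    rw [this]
    constructor
    · intro h q hq
      rw [hLw u hu _ hq, hLw v hv q (by omega)]
      exact h q hq
    · intro h q hq
      rw [← hLw u hu _ hq, ← hLw v hv q (by omega)]
      exact h q hq
  have hinj : ∀ u v, u < nV P m → v < nV P m → u ≠ v → ∃ q < k, Lw u q ≠ Lw v q := by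
    intro u v hu hv huv
    by_contra hcon
    push Not at hcon
    apply huv
    have : (⟨u, hu⟩ : Fin (nV P m)) = ⟨v, hv⟩ := by
      apply hL.1
      funext q
      rw [← hLw u hu q q.2, ← hLw v hv q q.2]
      exact hcon q q.2
    exact congrArg Fin.val this
  -- chains
  have chain : ∀ (f : ℕ → ℕ) (n : ℕ), (∀ p ≤ n, f p < nV P m) →
      (∀ p < n, arc P m adj (f p) (f (p + 1)) = true) →
      ∀ q, q + n < k → Lw (f 0) (q + n) = Lw (f n) q := by
    intro f n
    induction n with
    | zero => intro _ _ q _; rfl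
    | succ n ih =>
      intro h1 h2 q hq
      have h3 := ih (fun p hp => h1 p (by omega)) (fun p hp => h2 p (by omega)) (q + 1) (by omega)
      have h4 := (harc _ _ (h1 n (by omega)) (h1 (n + 1) le_rfl)).1 (h2 n (by omega)) q (by omega)
      rw [← h4, ← h3]
      congr 1
      omega
  -- for adjacent pairs
  have hlt' : ∀ i j, adj i j = true → j < P := fun i j h => hlt j i (by rw [hsymm]; exact h)
  have hPP : ∀ j, j < P → j < P * P := fun j hj => lt_of_lt_of_le hj (Nat.le_mul_of_pos_left _ hPpos)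
  have vmain : ∀ i j, adj i j = true → ∀ p < 2 * m + 5, idx P m 0 i j p < nV P m :=
    fun i j h p hp => idx_lt (by norm_num) (hlt i j h) (hPP j (hlt' i j h)) hp
  have vside : ∀ i j, adj i j = true → ∀ p < 2 * m + 5, idx P m 1 i j p < nV P m :=
    fun i j h p hp => idx_lt (by norm_num) (hlt i j h) (hPP j (hlt' i j h)) hp
  have amain : ∀ i j, adj i j = true → ∀ p, p + 1 ≤ m + 3 →
      arc P m adj (idx P m 0 i j p) (idx P m 0 i j (p + 1)) = true := by
    intro i j h p hp
    rw [arc_idx adj (hlt i j h) (hPP j (hlt' i j h)) (by omega) (hlt i j h)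
      (hPP j (hlt' i j h)) (by omega)]
    simp [arcT, h]
    omega
  have aside0 : ∀ i j, adj i j = true →
      arc P m adj (idx P m 0 i j 0) (idx P m 1 i j 0) = true := by
    intro i j h
    rw [arc_idx adj (hlt i j h) (hPP j (hlt' i j h)) (by omega) (hlt i j h)
      (hPP j (hlt' i j h)) (by omega)]
    simp [arcT, h]
  have aside : ∀ i j, adj i j = true → ∀ p, p + 1 ≤ 3 →
      arc P m adj (idx P m 1 i j p) (idx P m 1 i j (p + 1)) = true := by
    intro i j h p hp
    rw [arc_idx adj (hlt i j h) (hPP j (hlt' i j h)) (by omega) (hlt i j h)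
      (hPP j (hlt' i j h)) (by omega)]
    simp [arcT, h]
    omega
  have across : ∀ i j, adj i j = true →
      arc P m adj (idx P m 1 i j 2) (idx P m 1 j i 3) = true := by
    intro i j h
    rw [arc_idx adj (hlt i j h) (hPP j (hlt' i j h)) (by omega) (hlt' i j h)
      (hPP i (hlt i j h)) (by omega)]
    simp [arcT, h]
  have hY : ∀ i j, adj i j = true → min i j * P + max i j < P * P := fun i j h =>
    plt (lt_of_le_of_lt (min_le_left _ _) (hlt i j h)) (max_lt (hlt i j h) (hlt' i j h))
  have aleaf : ∀ i j, adj i j = true →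
      arc P m adj (idx P m 0 i j (m + 3)) (idx P m 2 i (min i j * P + max i j) 0) = true := by
    intro i j h
    rw [arc_idx adj (hlt i j h) (hPP j (hlt' i j h)) (by omega) (hlt i j h)
      (hY i j h) (by omega)]
    simp [arcT, h]
  have atree : ∀ i < P, ∀ c < P * P, ∀ p, p + 1 < 2 * m + 5 →
      arc P m adj (idx P m 2 i c p) (idx P m 2 i (c / 2) (p + 1)) = true := by
    intro i hi c hc p hp
    rw [arc_idx adj hi hc (by omega) hi (by omega) hp]
    simp [arcT]
  -- (1) main1 and side0 agree except in the last letter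
  have h1 : ∀ i j, adj i j = true → ∀ q, q + 1 < k →
      Lw (idx P m 0 i j 1) q = Lw (idx P m 1 i j 0) q := by
    intro i j h q hq
    rw [← (harc _ _ (vmain i j h 0 (by omega)) (vmain i j h 1 (by omega))).1
      (amain i j h 0 (by omega)) q hq,
      ← (harc _ _ (vmain i j h 0 (by omega)) (vside i j h 0 (by omega))).1 (aside0 i j h) q hq]
  -- (2)
  have h2a : ∀ i j, adj i j = true → ∀ q, q + 3 < k →
      Lw (idx P m 1 i j 0) (q + 3) = Lw (idx P m 1 i j 3) q := by
    intro i j h q hq
    exact chain (fun p => idx P m 1 i j p) 3 (fun p hp => vside i j h p (by omega))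
      (fun p hp => aside i j h p (by omega)) q hq
  have h2b : ∀ i j, adj i j = true → ∀ q, q + 3 < k →
      Lw (idx P m 1 i j 0) (q + 3) = Lw (idx P m 1 j i 3) q := by
    intro i j h q hq
    have e1 := chain (fun p => idx P m 1 i j p) 2 (fun p hp => vside i j h p (by omega))
      (fun p hp => aside i j h p (by omega)) (q + 1) (by omega)
    have hji : adj j i = true := by rw [hsymm]; exact h
    have e2 := (harc _ _ (vside i j h 2 (by omega)) (vside j i hji 3 (by omega))).1 (across i j h)
      q (by omega)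
    exact e1.trans e2
  have h2 : ∀ i j, adj i j = true → ∀ q, 3 ≤ q → q < k →
      Lw (idx P m 1 i j 0) q = Lw (idx P m 1 j i 0) q := by
    intro i j h q hq hqk
    have hji : adj j i = true := by rw [hsymm]; exact h
    obtain ⟨q', rfl⟩ : ∃ q', q = q' + 3 := ⟨q - 3, by omega⟩
    rw [h2b i j h q' hqk, h2a j i hji q' hqk]
  -- (3)
  have hidxne : ∀ i j, adj i j = true → idx P m 0 i j 1 ≠ idx P m 1 i j 0 := by
    intro i j h heq
    have e1 : idx P m 0 i j 1 % (2 * m + 5) = 1 := pmod (by omega)
    have e2 : idx P m 1 i j 0 % (2 * m + 5) = 0 := pmod (by omega)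
    rw [heq, e2] at e1
    omega
  have h3 : ∀ i j, adj i j = true →
      Lw (idx P m 0 i j 1) (k - 1) = !(Lw (idx P m 1 i j 0) (k - 1)) := by
    intro i j h
    obtain ⟨q, hq, hne⟩ := hinj _ _ (vmain i j h 1 (by omega)) (vside i j h 0 (by omega))
      (hidxne i j h)
    by_cases hq' : q + 1 < k
    · exact absurd (h1 i j h q hq') hne
    · have : q = k - 1 := by omega
      subst this
      exact Bool.eq_not_of_ne hne
  -- (4)
  have h4 : ∀ i j, adj i j = true → ∀ q, 3 ≤ q → q < k →
      Lw (idx P m 0 i j 1) q = Lw (idx P m 0 j i 1) q := by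
    intro i j h q hq hqk
    have hji : adj j i = true := by rw [hsymm]; exact h
    by_cases hq' : q + 1 < k
    · rw [h1 i j h q hq', h1 j i hji q hq', h2 i j h q hq hqk]
    · have : q = k - 1 := by omega
      subst this
      rw [h3 i j h, h3 j i hji, h2 i j h _ hq hqk]
  -- (5)
  have h5a : ∀ i j, adj i j = true → ∀ q, q + 3 < k →
      Lw (idx P m 0 i j 1) (q + 3) = Lw (idx P m 0 i j 4) q := by
    intro i j h q hq
    exact chain (fun p => idx P m 0 i j (p + 1)) 3 (fun p hp => vmain i j h (p + 1) (by omega))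
      (fun p hp => amain i j h (p + 1) (by omega)) q hq
  have h5 : ∀ i j, adj i j = true → ∀ q, q + 3 < k →
      Lw (idx P m 0 i j 4) q = Lw (idx P m 0 j i 4) q := by
    intro i j h q hq
    have hji : adj j i = true := by rw [hsymm]; exact h
    rw [← h5a i j h q hq, ← h5a j i hji q hq, h4 i j h _ (by omega) hq]
  -- (7)
  have htree : ∀ i < P, ∀ c < P * P, ∀ n < 2 * m + 5, ∀ q, q + n < k →
      Lw (idx P m 2 i c 0) (q + n) = Lw (idx P m 2 i (c / 2 ^ n) n) q := by
    intro i hi c hc n hn q hq
    have hcn : ∀ p, c / 2 ^ p < P * P := fun p => lt_of_le_of_lt (Nat.div_le_self _ _) hc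
    have := chain (fun p => idx P m 2 i (c / 2 ^ p) p) n
      (fun p hp => idx_lt (by norm_num) hi (hcn p) (by omega))
      (fun p hp => by
        have := atree i hi (c / 2 ^ p) (hcn p) p (by omega)
        rw [Nat.div_div_eq_div_mul, ← pow_succ] at this
        exact this) q hq
    simpa using this
  have h7 : ∀ i j, adj i j = true → ∀ q, q + 3 * m < k →
      Lw (idx P m 0 i j 4) (q + 3 * m) = Lw (idx P m 2 i 0 (2 * m)) q := by
    intro i j h q hq
    have e1 := chain (fun p => idx P m 0 i j (p + 4)) (m - 1)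
      (fun p hp => vmain i j h (p + 4) (by omega))
      (fun p hp => amain i j h (p + 4) (by omega)) (q + 2 * m + 1) (by omega)
    have e0 : m - 1 + 4 = m + 3 := by omega
    rw [e0] at e1
    have e2 := (harc _ _ (vmain i j h (m + 3) (by omega))
      (idx_lt (by norm_num) (hlt i j h) (hY i j h) (by omega))).1 (aleaf i j h)
      (q + 2 * m) (by omega)
    have e3 := htree i (hlt i j h) _ (hY i j h) (2 * m) (by omega) q (by omega)
    have e4 : (min i j * P + max i j) / 2 ^ (2 * m) = 0 := by
      apply Nat.div_eq_of_lt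
      have : (2 : ℕ) ^ (2 * m) = P * P := by rw [hP]; ring
      rw [this]
      exact hY i j h
    rw [e4] at e3
    have e5 : q + 3 * m = q + 2 * m + 1 + (m - 1) := by omega
    rw [e5]
    rw [show (0 + 4) = 4 from rfl] at e1
    rw [e1, e2, e3]
  -- the colouring
  refine ⟨fun i => (Lw (idx P m 2 i 0 (2 * m)) (k - 3 - 3 * m),
    Lw (idx P m 2 i 0 (2 * m)) (k - 2 - 3 * m)), ?_⟩
  intro i j h heq
  have hji : adj j i = true := by rw [hsymm]; exact h
  simp only [Prod.mk.injEq] at heq
  rw [← h7 i j h _ (by omega), ← h7 j i hji _ (by omega), ← h7 i j h _ (by omega),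
    ← h7 j i hji _ (by omega)] at heq
  have e1 : k - 3 - 3 * m + 3 * m = k - 3 := by omega
  have e2 : k - 2 - 3 * m + 3 * m = k - 2 := by omega
  rw [e1, e2] at heq
  have hall : ∀ q, q + 1 < k → Lw (idx P m 0 i j 4) q = Lw (idx P m 0 j i 4) q := by
    intro q hq
    by_cases hq3 : q + 3 < k
    · exact h5 i j h q hq3
    · have : q = k - 3 ∨ q = k - 2 := by omega
      rcases this with rfl | rfl
      · exact heq.1
      · exact heq.2
  have hbad := (harc (idx P m 0 i j 3) (idx P m 0 j i 4) (vmain i j h 3 (by omega))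
    (vmain j i hji 4 (by omega))).2 (fun q hq => by
      rw [← hall q hq]
      exact (harc _ _ (vmain i j h 3 (by omega)) (vmain i j h 4 (by omega))).1
        (amain i j h 3 (by omega)) q hq)
  rw [arc_idx adj (hlt i j h) (hPP j (hlt' i j h)) (by omega) (hlt' i j h)
      (hPP i (hlt i j h)) (by omega)] at hbad
  have hij : i ≠ j := by
    rintro rfl
    rw [hirr] at h
    exact absurd h (by simp)
  simp [arcT, hij] at hbad

end toColoring

end Pool.MP_868529_lc
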