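import Pool.Agent.MP_868529_lc.Strings

/-!
# A 4-colouring gives a De Bruijn labeling
-/

namespace Pool.MP_868529_lc

/-- tuples -/
structure Tup where
  κ : ℕ
  i : ℕ
  c : ℕ
  p : ℕ

/-- decoding of a vertex number -/
def dec (P m u : ℕ) : Tup :=
  ⟨u / (2 * m + 5) / (P * P) / P, u / (2 * m + 5) / (P * P) % P, u / (2 * m + 5) % (P * P),
    u % (2 * m + 5)⟩

section

variable (P m : ℕ) (adj : ℕ → ℕ → Bool) (col : ℕ → Bool × Bool)

/-- the kind of a vertex: 0 main, 1 side, 2 tree, 3 isolated -/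
def knd (t : Tup) : ℕ :=
  if t.κ = 0 ∧ adj t.i t.c = true ∧ t.p ≤ m + 3 then 0
  else if t.κ = 1 ∧ adj t.i t.c = true ∧ t.p ≤ 3 then 1
  else if t.κ = 2 then 2
  else 3

/-- the level of a vertex -/
def lv (t : Tup) : ℕ :=
  if knd m adj t = 0 then t.p
  else if knd m adj t = 1 then t.p + 1
  else if knd m adj t = 2 then 4 + m + t.p
  else nV P m + 4 * m + 20

/-- source string -/
def sr (u : ℕ) (t : Tup) (r : ℕ) : Bool :=
  if knd m adj t = 0 then mstr m (col t.i).1 (col t.i).2 (eps t.i t.c) t.i (yy P t.i t.c) t.p r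
  else if knd m adj t = 1 then sstr m (eps t.i t.c) (yy P t.i t.c) (t.p + 1) r
  else if knd m adj t = 2 then tstr m (col t.i).1 (col t.i).2 t.i t.c t.p r
  else u.testBit r

/-- target string -/
def tr (u : ℕ) (t : Tup) (r : ℕ) : Bool :=
  if knd m adj t = 0 then mstr m (col t.i).1 (col t.i).2 (eps t.i t.c) t.i (yy P t.i t.c) (t.p + 1) r
  else if knd m adj t = 1 then sstr m (eps t.i t.c) (yy P t.i t.c) (t.p + 2) r
  else if knd m adj t = 2 then tstr m (col t.i).1 (col t.i).2 t.i (t.c / 2) (t.p + 1) r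
  else u.testBit r

end

variable {P m : ℕ} {adj : ℕ → ℕ → Bool} {col : ℕ → Bool × Bool}

theorem knd_cases (t : Tup) :
    (knd m adj t = 0 ∧ t.κ = 0 ∧ adj t.i t.c = true ∧ t.p ≤ m + 3) ∨
    (knd m adj t = 1 ∧ t.κ = 1 ∧ adj t.i t.c = true ∧ t.p ≤ 3) ∨
    (knd m adj t = 2 ∧ t.κ = 2) ∨ (knd m adj t = 3 ∧ t.κ ≠ 2) := by
  unfold knd
  by_cases h0 : t.κ = 0 ∧ adj t.i t.c = true ∧ t.p ≤ m + 3
  · left; rw [if_pos h0]; exact ⟨rfl, h0⟩
  · rw [if_neg h0]
    by_cases h1 : t.κ = 1 ∧ adj t.i t.c = true ∧ t.p ≤ 3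
    · right; left; rw [if_pos h1]; exact ⟨rfl, h1⟩
    · rw [if_neg h1]
      by_cases h2 : t.κ = 2
      · right; right; left; rw [if_pos h2]; exact ⟨rfl, h2⟩
      · right; right; right; rw [if_neg h2]; exact ⟨rfl, h2⟩

theorem knd_main {t : Tup} (h1 : t.κ = 0) (h2 : adj t.i t.c = true) (h3 : t.p ≤ m + 3) :
    knd m adj t = 0 := by
  unfold knd; rw [if_pos ⟨h1, h2, h3⟩]

theorem knd_side {t : Tup} (h1 : t.κ = 1) (h2 : adj t.i t.c = true) (h3 : t.p ≤ 3) :
    knd m adj t = 1 := by
  unfold knd; rw [if_neg (by omega), if_pos ⟨h1, h2, h3⟩]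

theorem knd_tree {t : Tup} (h1 : t.κ = 2) : knd m adj t = 2 := by
  unfold knd; rw [if_neg (by omega), if_neg (by omega), if_pos h1]

/-- a 4-colouring gives a labeling -/
theorem labeling_of_colorable (hm : 1 ≤ m) (hP : P = 2 ^ m)
    (hsymm : ∀ i j, adj i j = adj j i) (hirr : ∀ i, adj i i = false)
    (hlt : ∀ i j, adj i j = true → i < P)
    (hcol : ∀ i j, adj i j = true → col i ≠ col j) :
    ∃ k, 1 ≤ k ∧ ∃ L : Fin (nV P m) → Fin k → Bool,
      IsLabeling k (fun u v : Fin (nV P m) => arc P m adj u v) L := by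
  have hPpos : 0 < P := by rw [hP]; positivity
  have hlt' : ∀ i j, adj i j = true → j < P := fun i j h => hlt j i (by rw [hsymm]; exact h)
  have hne : ∀ i j, adj i j = true → i ≠ j := by
    rintro i j h rfl
    rw [hirr] at h
    exact absurd h (by simp)
  set R := nV P m + 6 * m + 30 with hR
  have hR1 : 4 + 3 * m ≤ R := by omega
  -- decoding facts
  have hPP : 0 < P * P := by positivity
  have di : ∀ u, (dec P m u).i < P := fun u => Nat.mod_lt _ hPpos
  have dc : ∀ u, (dec P m u).c < P * P := fun u => Nat.mod_lt _ hPP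
  have dp : ∀ u, (dec P m u).p < 2 * m + 5 := fun u => Nat.mod_lt _ (by omega)
  have dinj : ∀ u v, (dec P m u).κ = (dec P m v).κ → (dec P m u).i = (dec P m v).i →
      (dec P m u).c = (dec P m v).c → (dec P m u).p = (dec P m v).p → u = v := by
    intro u v h1 h2 h3 h4
    simp only [dec] at h1 h2 h3 h4
    have e : ∀ w : ℕ, w = ((w / (2 * m + 5) / (P * P) / P * P + w / (2 * m + 5) / (P * P) % P) *
        (P * P) + w / (2 * m + 5) % (P * P)) * (2 * m + 5) + w % (2 * m + 5) := by
      intro w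
      rw [Nat.div_add_mod', Nat.div_add_mod', Nat.div_add_mod']
    rw [e u, e v, h1, h2, h3, h4]
  have harc : ∀ u v, arc P m adj u v = arcT P m adj (dec P m u).κ (dec P m u).i (dec P m u).c
      (dec P m u).p (dec P m v).κ (dec P m v).i (dec P m v).c (dec P m v).p := fun u v => rfl
  have hyy : ∀ t : Tup, adj t.i t.c = true → yy P t.i t.c < P * P := fun t h =>
    plt (lt_of_le_of_lt (min_le_left _ _) (hlt _ _ h)) (max_lt (hlt _ _ h) (hlt' _ _ h))
  refine labeling_of_butterfly _ R (fun u => lv P m adj (dec P m u))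
    (fun u => sr P m adj col u (dec P m u)) (fun u => tr P m adj col u (dec P m u)) ?_ ?_ ?_ ?_
  · -- levels
    intro u
    have := dp u
    simp only [lv]
    rcases knd_cases (m := m) (adj := adj) (dec P m u) with h | h | h | h
    · rw [if_pos h.1]; omega
    · rw [if_neg (by omega), if_pos h.1]; omega
    · rw [if_neg (by omega), if_neg (by omega), if_pos h.1]; omega
    · rw [if_neg (by omega), if_neg (by omega), if_neg (by omega)]; omega
  · -- agreement
    intro u r hr
    simp only [lv] at hr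
    simp only [sr, tr]
    rcases knd_cases (m := m) (adj := adj) (dec P m u) with h | h | h | h
    · rw [if_pos h.1] at hr ⊢
      rw [if_pos h.1]
      exact m_step hr
    · rw [if_neg (by omega), if_pos h.1] at hr ⊢
      rw [if_neg (by omega), if_pos h.1]
      exact s_step (by omega) hr
    · rw [if_neg (by omega), if_neg (by omega), if_pos h.1] at hr ⊢
      rw [if_neg (by omega), if_neg (by omega), if_pos h.1]
      exact t_step hr
    · rw [if_neg (by omega), if_neg (by omega), if_neg (by omega)]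
      rw [if_neg (by omega), if_neg (by omega), if_neg (by omega)]
  · -- injectivity
    intro e f hl hs ht
    have ee := dp e
    have ef := dp f
    apply Fin.ext
    simp only [lv, sr, tr] at hl hs ht
    rcases knd_cases (m := m) (adj := adj) (dec P m e) with h | h | h | h <;>
    rcases knd_cases (m := m) (adj := adj) (dec P m f) with h' | h' | h' | h' <;>
    simp only [h.1, h'.1, if_true, if_false, one_ne_zero, OfNat.ofNat_ne_zero,
      show ¬ (0 = 1) by omega, show ¬ (0 = 2) by omega, show ¬ (2 = 1) by omega,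
      show ¬ (1 = 2) by omega, show ¬ (3 = 1) by omega, show ¬ (3 = 2) by omega] at hl hs ht
    · -- main main
      obtain ⟨h1, h2⟩ := m_m hm hR1 hP (hlt _ _ h.2.2.1) (hlt' _ _ h.2.2.1) (hlt _ _ h'.2.2.1)
        (hlt' _ _ h'.2.2.1) (hne _ _ h.2.2.1) (hcol _ _ h.2.2.1) (q := (dec P m e).p)
        (by intro r hr; rw [hs r hr, hl])
      exact dinj _ _ (by omega) h1.symm h2.symm hl
    · -- main side
      exfalso
      have := (m_s hm hR1 hP (hlt _ _ h.2.2.1) (hlt' _ _ h.2.2.1) (hlt _ _ h'.2.2.1)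
        (hlt' _ _ h'.2.2.1) (hne _ _ h.2.2.1) (q := (dec P m e).p + 1)
        (by intro r hr; rw [ht r hr, hl])).1
      omega
    · omega
    · omega
    · -- side main
      exfalso
      have := (m_s hm hR1 hP (hlt _ _ h'.2.2.1) (hlt' _ _ h'.2.2.1) (hlt _ _ h.2.2.1)
        (hlt' _ _ h.2.2.1) (hne _ _ h'.2.2.1) (q := (dec P m f).p + 1)
        (by intro r hr; rw [← ht r hr, ← hl])).1
      omega
    · -- side side
      have hl' : (dec P m e).p = (dec P m f).p := by omega
      rcases s_s hm hR1 hP (hlt _ _ h.2.2.1) (hlt' _ _ h.2.2.1) (hlt _ _ h'.2.2.1)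
        (hlt' _ _ h'.2.2.1) (hne _ _ h.2.2.1) (q := (dec P m e).p + 1)
        (by intro r hr; rw [hs r hr, hl']) with ⟨h1, h2⟩ | ⟨h1, h2, h3⟩
      · exact dinj _ _ (by omega) h1.symm h2.symm hl'
      · rcases s_s hm hR1 hP (hlt _ _ h.2.2.1) (hlt' _ _ h.2.2.1) (hlt _ _ h'.2.2.1)
          (hlt' _ _ h'.2.2.1) (hne _ _ h.2.2.1) (q := (dec P m e).p + 2)
          (by intro r hr; rw [ht r hr, hl']) with ⟨h4, h5⟩ | ⟨h4, h5, h6⟩
        · exact dinj _ _ (by omega) h4.symm h5.symm hl'
        · omega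
    · omega
    · omega
    · omega
    · omega
    · -- tree tree
      have hl' : (dec P m e).p = (dec P m f).p := by omega
      obtain ⟨h1, h2⟩ := t_t (R := R) (q := (dec P m e).p) (by omega) hP (di e) (di f) (dc e) (dc f)
        (by intro r hr; rw [hs r hr, hl'])
      exact dinj _ _ (by omega) h1.symm h2.symm hl'
    · omega
    · omega
    · omega
    · omega
    · -- isolated
      have b1 : (e : ℕ) < 2 ^ nV P m := lt_trans e.2 Nat.lt_two_pow_self
      have b2 : (f : ℕ) < 2 ^ nV P m := lt_trans f.2 Nat.lt_two_pow_self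
      exact eq_of_testBit_lt b1 b2 fun r hr => hs r (by omega)
  · -- adjacency
    intro e f
    have ee := dp e
    have ef := dp f
    constructor
    · intro ha
      rw [harc] at ha
      simp only [arcT, Bool.or_eq_true, Bool.and_eq_true, beq_iff_eq, decide_eq_true_eq] at ha
      simp only [lv, sr, tr]
      rcases ha with ((((ha | ha) | ha) | ha) | ha) | ha
      · obtain ⟨⟨⟨⟨⟨⟨h1, h2⟩, h3⟩, h4⟩, h5⟩, h6⟩, h7⟩ := ha
        have k1 := knd_main (m := m) (adj := adj) h1 h7 (by omega)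
        have k2 := knd_main (m := m) (adj := adj) h2 (by rw [← h3, ← h4]; exact h7) h6
        rw [if_pos k1, if_pos k2]
        refine ⟨h5, fun r hr => ?_⟩
        rw [if_pos k1, if_pos k2, h3, h4, h5]
      · obtain ⟨⟨⟨⟨⟨⟨h1, h2⟩, h3⟩, h4⟩, h5⟩, h6⟩, h7⟩ := ha
        have k1 := knd_main (m := m) (adj := adj) h1 h7 (by omega)
        have k2 := knd_side (m := m) (adj := adj) h2 (by rw [← h5, ← h6]; exact h7) (by omega)
        have k2' : ¬ knd m adj (dec P m f) = 0 := by omega
        rw [if_pos k1, if_neg k2', if_pos k2]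
        refine ⟨by omega, fun r hr => ?_⟩
        rw [if_pos k1, if_neg k2', if_pos k2, h3, h4, h5, h6]
        exact m_eq_s hm
      · obtain ⟨⟨⟨⟨⟨⟨h1, h2⟩, h3⟩, h4⟩, h5⟩, h6⟩, h7⟩ := ha
        have k1 := knd_side (m := m) (adj := adj) h1 h7 (by omega)
        have k2 := knd_side (m := m) (adj := adj) h2 (by rw [← h3, ← h4]; exact h7) h6
        have k1' : ¬ knd m adj (dec P m e) = 0 := by omega
        have k2' : ¬ knd m adj (dec P m f) = 0 := by omega
        rw [if_neg k1', if_pos k1, if_neg k2', if_pos k2]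
        refine ⟨by omega, fun r hr => ?_⟩
        rw [if_neg k1', if_pos k1, if_neg k2', if_pos k2, h3, h4, h5]
      · obtain ⟨⟨⟨⟨⟨⟨h1, h2⟩, h3⟩, h4⟩, h5⟩, h6⟩, h7⟩ := ha
        have h7' : adj (dec P m f).i (dec P m f).c = true := by rw [← h3, ← h4, hsymm]; exact h7
        have k1 := knd_side (m := m) (adj := adj) h1 h7 (by omega)
        have k2 := knd_side (m := m) (adj := adj) h2 h7' (by omega)
        have k1' : ¬ knd m adj (dec P m e) = 0 := by omega
        have k2' : ¬ knd m adj (dec P m f) = 0 := by omega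
        rw [if_neg k1', if_pos k1, if_neg k2', if_pos k2]
        refine ⟨by omega, fun r hr => ?_⟩
        rw [if_neg k1', if_pos k1, if_neg k2', if_pos k2, h5, h6]
        have : yy P (dec P m e).i (dec P m e).c = yy P (dec P m f).i (dec P m f).c := by
          unfold yy
          rw [h3, h4, min_comm, max_comm]
        rw [this]
        exact s_eq_s
      · obtain ⟨⟨⟨⟨⟨⟨h1, h2⟩, h3⟩, h4⟩, h5⟩, h6⟩, h7⟩ := ha
        have k1 := knd_main (m := m) (adj := adj) h1 h7 (by omega)
        have k2 := knd_tree (m := m) (adj := adj) h2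
        have k2' : ¬ knd m adj (dec P m f) = 0 := by omega
        have k2'' : ¬ knd m adj (dec P m f) = 1 := by omega
        rw [if_pos k1, if_neg k2', if_neg k2'', if_pos k2]
        refine ⟨by omega, fun r hr => ?_⟩
        rw [if_pos k1, if_neg k2', if_neg k2'', if_pos k2, h3, h4, ← h5, h6]
        exact m_eq_t
      · obtain ⟨⟨⟨⟨h1, h2⟩, h3⟩, h4⟩, h5⟩ := ha
        have k1 := knd_tree (m := m) (adj := adj) h1
        have k2 := knd_tree (m := m) (adj := adj) h2
        have k1' : ¬ knd m adj (dec P m e) = 0 := by omega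
        have k1'' : ¬ knd m adj (dec P m e) = 1 := by omega
        have k2' : ¬ knd m adj (dec P m f) = 0 := by omega
        have k2'' : ¬ knd m adj (dec P m f) = 1 := by omega
        rw [if_neg k1', if_neg k1'', if_pos k1, if_neg k2', if_neg k2'', if_pos k2]
        refine ⟨by omega, fun r hr => ?_⟩
        rw [if_neg k1', if_neg k1'', if_pos k1, if_neg k2', if_neg k2'', if_pos k2, h3, h4, h5]
    · rintro ⟨hl, hs⟩
      rw [harc]
      simp only [arcT, Bool.or_eq_true, Bool.and_eq_true, beq_iff_eq, decide_eq_true_eq]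
      simp only [lv, sr, tr] at hl hs
      rcases knd_cases (m := m) (adj := adj) (dec P m e) with h | h | h | h <;>
      rcases knd_cases (m := m) (adj := adj) (dec P m f) with h' | h' | h' | h' <;>
      simp only [h.1, h'.1, if_true, if_false, one_ne_zero, OfNat.ofNat_ne_zero,
        show ¬ (0 = 1) by omega, show ¬ (0 = 2) by omega, show ¬ (2 = 1) by omega,
        show ¬ (1 = 2) by omega, show ¬ (3 = 1) by omega, show ¬ (3 = 2) by omega] at hl hs
      · -- main main
        obtain ⟨h1, h2⟩ := m_m hm hR1 hP (hlt _ _ h.2.2.1) (hlt' _ _ h.2.2.1) (hlt _ _ h'.2.2.1)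
          (hlt' _ _ h'.2.2.1) (hne _ _ h.2.2.1) (hcol _ _ h.2.2.1) (q := (dec P m e).p + 1)
          (by intro r hr; rw [hs r hr, hl])
        left; left; left; left; left
        exact ⟨⟨⟨⟨⟨⟨h.2.1, h'.2.1⟩, h1.symm⟩, h2.symm⟩, hl⟩, h'.2.2.2⟩, h.2.2.1⟩
      · -- main side
        obtain ⟨h1, h2, h3⟩ := m_s hm hR1 hP (hlt _ _ h.2.2.1) (hlt' _ _ h.2.2.1)
          (hlt _ _ h'.2.2.1) (hlt' _ _ h'.2.2.1) (hne _ _ h.2.2.1) (q := (dec P m e).p + 1)
          (by intro r hr; rw [hs r hr, hl])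
        left; left; left; left; right
        exact ⟨⟨⟨⟨⟨⟨h.2.1, h'.2.1⟩, by omega⟩, by omega⟩, h2.symm⟩, h3.symm⟩, h.2.2.1⟩
      · -- main tree
        have hp : (dec P m e).p = m + 3 := by omega
        have hp' : (dec P m f).p = 0 := by omega
        obtain ⟨h1, h2⟩ := m_t hm hR1 hP (hlt _ _ h.2.2.1) (di f) (hyy _ h.2.2.1) (dc f)
          (by intro r hr; rw [show m + 4 = (dec P m e).p + 1 by omega, hs r hr, hp'])
        left; right
        exact ⟨⟨⟨⟨⟨⟨h.2.1, h'.2⟩, hp⟩, hp'⟩, h1.symm⟩, h2⟩, h.2.2.1⟩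
      · omega
      · -- side main
        exfalso
        have := (m_s hm hR1 hP (hlt _ _ h'.2.2.1) (hlt' _ _ h'.2.2.1) (hlt _ _ h.2.2.1)
          (hlt' _ _ h.2.2.1) (hne _ _ h'.2.2.1) (q := (dec P m f).p)
          (by intro r hr; rw [← hs r hr, hl])).1
        omega
      · -- side side
        rcases s_s hm hR1 hP (hlt _ _ h.2.2.1) (hlt' _ _ h.2.2.1) (hlt _ _ h'.2.2.1)
          (hlt' _ _ h'.2.2.1) (hne _ _ h.2.2.1) (q := (dec P m e).p + 2)
          (by intro r hr; rw [hs r hr, show (dec P m f).p + 1 = (dec P m e).p + 2 by omega])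
          with ⟨h1, h2⟩ | ⟨h1, h2, h3⟩
        · left; left; left; right
          exact ⟨⟨⟨⟨⟨⟨h.2.1, h'.2.1⟩, h1.symm⟩, h2.symm⟩, by omega⟩, h'.2.2.2⟩, h.2.2.1⟩
        · left; left; right
          exact ⟨⟨⟨⟨⟨⟨h.2.1, h'.2.1⟩, h2.symm⟩, h1.symm⟩, by omega⟩, by omega⟩, h.2.2.1⟩
      · -- side tree
        exfalso
        have h1 := hs 1 (by omega)
        simp [sstr, tstr] at h1
      · omega
      · omega
      · omega
      · -- tree tree
        have hp : (dec P m f).p = (dec P m e).p + 1 := by omega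
        have hc2 : (dec P m e).c / 2 < P * P := by have := dc e; omega
        obtain ⟨h1, h2⟩ := t_t (R := R) (q := (dec P m e).p + 1) (by omega) hP (di e) (di f) hc2
          (dc f) (by intro r hr; rw [hs r hr, hp])
        right
        exact ⟨⟨⟨⟨h.2, h'.2⟩, h1.symm⟩, hp⟩, h2⟩
      · omega
      · omega
      · omega
      · omega
      · omega

end Pool.MP_868529_lc
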