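import Pool.Agent.MP_868529_lc.Statement
import Pool.Agent.MP_868529_lc.ToLabeling
import Pool.Agent.NPC.ColFamily

/-!
# NP-hardness of the membership problem for `𝓛_∞^2`
-/

namespace Pool.Agent.MP_868529_lc

open Pool.NPC Pool.MP_868529_lc

/-! ### encoding -/

theorem length_encodeDigraph {n : ℕ} (A : Fin n → Fin n → Bool) :
    (encodeDigraph A).length = n + 1 + n * n := by
  simp [encodeDigraph]
  omega

theorem encodeDigraph_mem_iff {n : ℕ} (A : Fin n → Fin n → Bool) (α : ℕ) :
    encodeDigraph A ∈ membershipProblem α ↔ InLInf α A := by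
  constructor
  · rintro ⟨n', A', h1, h2⟩
    have hn : n = n' := by
      have := congrArg List.length h1
      rw [length_encodeDigraph, length_encodeDigraph] at this
      rcases lt_trichotomy n n' with hlt | heq | hgt
      · have := Nat.mul_self_lt_mul_self hlt
        omega
      · exact heq
      · have := Nat.mul_self_lt_mul_self hgt
        omega
    subst hn
    have hA : A = A' := by
      unfold encodeDigraph at h1
      have h3 := List.append_cancel_left h1
      simp only [List.cons.injEq, true_and] at h3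
      have h4 := List.ofFn_injective h3
      funext u v
      have h5 := congrFun h4 (finProdFinEquiv (u, v))
      have e1 : (finProdFinEquiv (u, v)).divNat = u := by
        have := congrArg Prod.fst (finProdFinEquiv.symm_apply_apply (u, v))
        exact this
      have e2 : (finProdFinEquiv (u, v)).modNat = v := by
        have := congrArg Prod.snd (finProdFinEquiv.symm_apply_apply (u, v))
        exact this
      simp only [e1, e2] at h5
      exact h5
    rw [hA]
    exact h2
  · intro h
    exact ⟨n, A, rfl, h⟩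

/-- the alphabets `Bool` and `Fin 2` -/
theorem inLInf_two_iff {n : ℕ} (A : Fin n → Fin n → Bool) :
    InLInf 2 A ↔ ∃ k, 1 ≤ k ∧ ∃ L : Fin n → Fin k → Bool, Pool.MP_868529_lc.IsLabeling k A L := by
  have e := finTwoEquiv
  constructor
  · rintro ⟨k, hk, L, h1, h2⟩
    refine ⟨k, hk, fun u q => finTwoEquiv (L u q), ?_, ?_⟩
    · intro u v huv
      apply h1
      funext q
      exact finTwoEquiv.injective (congrFun huv q)
    · intro u v
      rw [h2]
      constructor
      · intro h q hq
        exact congrArg _ (h q hq)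
      · intro h q hq
        exact finTwoEquiv.injective (h q hq)
  · rintro ⟨k, hk, L, h1, h2⟩
    refine ⟨k, hk, fun u q => finTwoEquiv.symm (L u q), ?_, ?_⟩
    · intro u v huv
      apply h1
      funext q
      exact finTwoEquiv.symm.injective (congrFun huv q)
    · intro u v
      rw [h2]
      constructor
      · intro h q hq
        exact congrArg _ (h q hq)
      · intro h q hq
        exact finTwoEquiv.symm.injective (h q hq)

/-- the reduction is correct -/
theorem reduction_correct (P m : ℕ) (hm : 1 ≤ m) (hP : P = 2 ^ m) (adj : ℕ → ℕ → Bool)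
    (hsymm : ∀ i j, adj i j = adj j i) (hirr : ∀ i, adj i i = false)
    (hlt : ∀ i j, adj i j = true → i < P) :
    InLInf 2 (fun u v : Fin (nV P m) => arc P m adj u v) ↔
      ∃ col : ℕ → Fin 4, ∀ i j, adj i j = true → col i ≠ col j := by
  rw [inLInf_two_iff]
  have e : Bool × Bool ≃ Fin 4 := (Equiv.prodCongr finTwoEquiv.symm finTwoEquiv.symm).trans
    finProdFinEquiv
  constructor
  · rintro ⟨k, _, L, hL⟩
    obtain ⟨col, hcol⟩ := colorable_of_labeling P m hm hP adj hsymm hirr hlt k L hL
    exact ⟨fun i => e (col i), fun i j h heq => hcol i j h (e.injective heq)⟩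
  · rintro ⟨col, hcol⟩
    exact labeling_of_colorable (col := fun i => e.symm (col i)) hm hP hsymm hirr hlt
      (fun i j h heq => hcol i j h (e.symm.injective heq))

/-! ### polynomial time -/

section

variable {α : Type} [Enc α]

theorem PT.arcT {P m k i c p k' i' c' p' : α → ℕ} {adj : α → ℕ → ℕ → Bool} (hP : PT P) (hm : PT m)
    (hk : PT k) (hi : PT i) (hc : PT c) (hp : PT p) (hk' : PT k') (hi' : PT i') (hc' : PT c')
    (hp' : PT p') (hadj : PT (fun a => adj a (i a) (c a))) :
    PT (fun a => arcT (P a) (m a) (adj a) (k a) (i a) (c a) (p a) (k' a) (i' a) (c' a) (p' a)) := by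
  unfold Pool.MP_868529_lc.arcT
  have k0 := PT.beq hk (PT.const 0)
  have k1 := PT.beq hk (PT.const 1)
  have k2 := PT.beq hk (PT.const 2)
  have k0' := PT.beq hk' (PT.const 0)
  have k1' := PT.beq hk' (PT.const 1)
  have k2' := PT.beq hk' (PT.const 2)
  have ii := PT.beq hi hi'
  have cc := PT.beq hc hc'
  have pp := PT.beq hp' (PT.succ hp)
  have hm3 := PT.add hm (PT.const 3)
  refine PT.or (PT.or (PT.or (PT.or (PT.or ?_ ?_) ?_) ?_) ?_) ?_
  · exact PT.and (PT.and (PT.and (PT.and (PT.and (PT.and k0 k0') ii) cc) pp) (PT.le hp' hm3)) hadj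
  · exact PT.and (PT.and (PT.and (PT.and (PT.and (PT.and k0 k1') (PT.beq hp (PT.const 0)))
      (PT.beq hp' (PT.const 0))) ii) cc) hadj
  · exact PT.and (PT.and (PT.and (PT.and (PT.and (PT.and k1 k1') ii) cc) pp)
      (PT.le hp' (PT.const 3))) hadj
  · exact PT.and (PT.and (PT.and (PT.and (PT.and (PT.and k1 k1') (PT.beq hi hc')) (PT.beq hc hi'))
      (PT.beq hp (PT.const 2))) (PT.beq hp' (PT.const 3))) hadj
  · exact PT.and (PT.and (PT.and (PT.and (PT.and (PT.and k0 k2') (PT.beq hp hm3))
      (PT.beq hp' (PT.const 0))) ii) (PT.beq hc' (PT.add (PT.mul (PT.min hi hc) hP)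
        (PT.max hi hc)))) hadj
  · exact PT.and (PT.and (PT.and (PT.and k2 k2') ii) pp) (PT.beq hc' (PT.div hc (PT.const 2)))

theorem PT.arc {P m u v : α → ℕ} {adj : α → ℕ → ℕ → Bool} (hP : PT P) (hm : PT m)
    (hu : PT u) (hv : PT v)
    (hadj : ∀ {i j : α → ℕ}, PT i → PT j → PT (fun a => adj a (i a) (j a))) :
    PT (fun a => arc (P a) (m a) (adj a) (u a) (v a)) := by
  unfold Pool.MP_868529_lc.arc
  have hQ := PT.add (PT.mul (PT.const 2) hm) (PT.const 5)
  have hPP := PT.mul hP hP
  have u1 := PT.div hu hQ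
  have v1 := PT.div hv hQ
  have u2 := PT.div u1 hPP
  have v2 := PT.div v1 hPP
  exact PT.arcT hP hm (PT.div u2 hP) (PT.mod u2 hP) (PT.mod u1 hPP) (PT.mod hu hQ)
    (PT.div v2 hP) (PT.mod v2 hP) (PT.mod v1 hPP) (PT.mod hv hQ)
    (hadj (PT.mod u2 hP) (PT.mod u1 hPP))

/-- adjacency matrix strings of polynomial time families are polynomial time -/
theorem PT.encodeDigraph {n : α → ℕ} {A : α × (ℕ × ℕ) → Bool} (hn : PT n) (hA : PT A) :
    PT (fun a => encodeDigraph (fun u v : Fin (n a) => A (a, ((u : ℕ), (v : ℕ))))) := by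
  have h1 : PT (fun a => List.replicate (n a) true ++ (false ::
      (List.range (n a * n a)).flatMap fun i => [A (a, (i / n a, i % n a))])) := by
    refine PT.append (PT.replicate hn) (PT.cons (PT.const false)
      (PT.flatMap (g := fun x => [A (x.1, (x.2 / n x.1, x.2 % n x.1))]) (PT.mul hn hn) ?_))
    have ha : PT (fun x : α × ℕ => x.1) := PT.fst
    have hi : PT (fun x : α × ℕ => x.2) := PT.snd
    have hna := PT.comp hn ha
    exact PT.cons (PT.comp hA (PT.pair ha (PT.pair (PT.div hi hna) (PT.mod hi hna))))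
      (PT.const [])
  refine h1.congr fun a => ?_
  unfold Pool.Agent.MP_868529_lc.encodeDigraph
  congr 2
  rw [← List.map_eq_flatMap]
  apply List.ext_getElem
  · simp
  · intro i h1 h2
    simp [Fin.divNat, Fin.modNat]

end

/-- the membership problem for `𝓛_∞^2` is NP-hard -/
theorem npHard_membershipProblem : NPHard (membershipProblem 2) := by
  intro B hB
  obtain ⟨n, adj, hn, hadj, hsymm, hirr, hlt, hcorr⟩ := colFamily 4 (by norm_num) B hB
  let P : List Bool → ℕ := fun s => (lg (n s)).2
  let m : List Bool → ℕ := fun s => (lg (n s)).1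
  have hP : PT P := PT.snd' (PT.lg hn)
  have hm : PT m := PT.fst' (PT.lg hn)
  let A : List Bool × (ℕ × ℕ) → Bool := fun a =>
    arc (P a.1) (m a.1) (fun i j => adj (a.1, (i, j))) a.2.1 a.2.2
  have hA : PT A := by
    have hs : PT (fun a : List Bool × (ℕ × ℕ) => a.1) := PT.fst
    exact PT.arc (PT.comp hP hs) (PT.comp hm hs) (PT.fst' PT.snd) (PT.snd' PT.snd)
      (fun hi hj => PT.comp hadj (PT.pair hs (PT.pair hi hj)))
  let N : List Bool → ℕ := fun s => nV (P s) (m s)
  have hN : PT N := by
    show PT (fun s => 3 * P s * (P s * P s) * (2 * m s + 5))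
    exact PT.mul (PT.mul (PT.mul (PT.const 3) hP) (PT.mul hP hP))
      (PT.add (PT.mul (PT.const 2) hm) (PT.const 5))
  refine ⟨fun s => encodeDigraph (fun u v : Fin (N s) => A (s, ((u : ℕ), (v : ℕ)))),
    (PT.encodeDigraph hN hA).polyTime, fun s => ?_⟩
  obtain ⟨h1, h2, h3⟩ := lg_spec (n s)
  rw [encodeDigraph_mem_iff, hcorr s]
  rw [← reduction_correct (P s) (m s) h1 h2 (fun i j => adj (s, (i, j))) (hsymm s) (hirr s)
    (fun i j h => lt_of_lt_of_le (hlt s i j h) (by
      show n s ≤ (lg (n s)).2
      rw [h2]; exact h3))]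

end Pool.Agent.MP_868529_lc
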