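import Mathlib

/-!
# The membership problem for `𝓛_∞^α`
-/

namespace Pool.Agent.MP_868529_lc

/-- An `(α,k)`-labeling of the digraph on `V` with arcs `A`: an injective map `L` from the vertices
to the words of length `k` over an alphabet of `α` letters such that `(u,v)` is an arc if and only
if the last `k-1` letters of `L u` are the first `k-1` letters of `L v` (also for `u = v`). -/
def IsLabeling (α k : ℕ) {V : Type} (A : V → V → Bool) (L : V → Fin k → Fin α) : Prop :=
  Function.Injective L ∧
    ∀ u v, A u v = true ↔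
      ∀ (q : ℕ) (h : q + 1 < k), L u ⟨q + 1, h⟩ = L v ⟨q, Nat.lt_of_succ_lt h⟩

/-- `A ∈ 𝓛_∞^α`: the digraph `A` has an `(α,k)`-labeling for some `k ≥ 1`. -/
def InLInf (α : ℕ) {n : ℕ} (A : Fin n → Fin n → Bool) : Prop :=
  ∃ k, 1 ≤ k ∧ ∃ L : Fin n → Fin k → Fin α, IsLabeling α k A L

/-- A digraph on `n` vertices as a bit string: `n` in unary, a zero, then the `n²` entries of the
adjacency matrix, row by row. -/
def encodeDigraph {n : ℕ} (A : Fin n → Fin n → Bool) : List Bool :=
  List.replicate n true ++ false :: List.ofFn fun i : Fin (n * n) => A i.divNat i.modNat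

/-- The membership problem for `𝓛_∞^α`, as a set of bit strings. -/
def membershipProblem (α : ℕ) : Set (List Bool) :=
  {s | ∃ (n : ℕ) (A : Fin n → Fin n → Bool), s = encodeDigraph A ∧ InLInf α A}

end Pool.Agent.MP_868529_lc
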