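import Pool.Agent.MP_868529_lc.Butterfly

/-!
# The butterfly embedding given by a 4-colouring
-/

namespace Pool.MP_868529_lc

theorem eq_of_testBit_lt {x y B : ℕ} (hx : x < 2 ^ B) (hy : y < 2 ^ B)
    (h : ∀ r < B, x.testBit r = y.testBit r) : x = y := by
  apply Nat.eq_of_testBit_eq
  intro r
  by_cases hr : r < B
  · exact h r hr
  · have h1 : (2 : ℕ) ^ B ≤ 2 ^ r := Nat.pow_le_pow_right (by norm_num) (by omega)
    rw [Nat.testBit_lt_two_pow (by omega), Nat.testBit_lt_two_pow (by omega)]

/-- orientation bit -/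
def eps (i j : ℕ) : Bool := decide (j < i)

/-- code of an unordered pair -/
def yy (P i j : ℕ) : ℕ := min i j * P + max i j

/-- string of a main node -/
def mstr (m : ℕ) (u v e : Bool) (i Y q r : ℕ) : Bool :=
  if r < 2 then false
  else if r = 2 then decide (3 ≤ q) && u
  else if r = 3 then (if 4 ≤ q then v else e)
  else if r < 4 + m then decide (r + 1 ≤ q) && i.testBit (r - 4)
  else Y.testBit (r - (4 + m))

/-- string of a side node -/
def sstr (m : ℕ) (e : Bool) (Y q r : ℕ) : Bool :=
  if r = 0 then false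
  else if r = 1 then decide (2 ≤ q)
  else if r = 2 then false
  else if r = 3 then decide (q ≤ 3) && e
  else if r = 4 then decide (5 ≤ q) && e
  else if r < 4 + m then false
  else Y.testBit (r - (4 + m))

/-- string of a tree node -/
def tstr (m : ℕ) (u v : Bool) (i c q r : ℕ) : Bool :=
  if r < 2 then false
  else if r = 2 then u
  else if r = 3 then v
  else if r < 4 + m then i.testBit (r - 4)
  else if r < 4 + m + q then false
  else c.testBit (r - (4 + m + q))

section

variable {P m R : ℕ} {adj : ℕ → ℕ → Bool} {col : ℕ → Bool × Bool}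

theorem yy_inj {i j i' j' : ℕ} (hi : i < P) (hj : j < P) (hi' : i' < P) (hj' : j' < P)
    (h : yy P i j = yy P i' j') : (i' = i ∧ j' = j) ∨ (i' = j ∧ j' = i) := by
  have h1 : max i j < P := max_lt hi hj
  have h2 : max i' j' < P := max_lt hi' hj'
  have e1 : max i j = max i' j' := by
    have := congrArg (· % P) h
    simpa [yy, pmod h1, pmod h2] using this
  have e2 : min i j = min i' j' := by
    have := congrArg (· / P) h
    simpa [yy, pdiv h1, pdiv h2] using this
  omega

theorem mstr_bits (hm : 1 ≤ m) (hR : 4 + 3 * m ≤ R) {u v e u' v' e' : Bool} {i i' Y Y' q q' : ℕ}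
    (hY : Y < 2 ^ (2 * m)) (hY' : Y' < 2 ^ (2 * m))
    (h : ∀ r < R, mstr m u v e i Y q r = mstr m u' v' e' i' Y' q' r) : Y = Y' := by
  refine eq_of_testBit_lt hY hY' fun r hr => ?_
  have := h (r + (4 + m)) (by omega)
  unfold mstr at this
  have e1 : ¬ (r + (4 + m) < 2) := by omega
  have e2 : ¬ (r + (4 + m) = 2) := by omega
  have e3 : ¬ (r + (4 + m) = 3) := by omega
  have e4 : ¬ (r + (4 + m) < 4 + m) := by omega
  simp only [e1, e2, e3, e4, if_false, Nat.add_sub_cancel] at this
  exact this

theorem m_m (hm : 1 ≤ m) (hR : 4 + 3 * m ≤ R) (hPm : P = 2 ^ m) {i j i' j' q : ℕ}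
    (hi : i < P) (hj : j < P) (hi' : i' < P) (hj' : j' < P) (hij : i ≠ j)
    (hcol : col i ≠ col j)
    (h : ∀ r < R, mstr m (col i).1 (col i).2 (eps i j) i (yy P i j) q r =
      mstr m (col i').1 (col i').2 (eps i' j') i' (yy P i' j') q r) : i' = i ∧ j' = j := by
  have hPP : (2 : ℕ) ^ (2 * m) = P * P := by rw [hPm]; ring
  have hY : yy P i j < 2 ^ (2 * m) := by
    rw [hPP]; exact plt (lt_of_le_of_lt (min_le_left _ _) hi) (max_lt hi hj)
  have hY' : yy P i' j' < 2 ^ (2 * m) := by
    rw [hPP]; exact plt (lt_of_le_of_lt (min_le_left _ _) hi') (max_lt hi' hj')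
  rcases yy_inj hi hj hi' hj' (mstr_bits hm hR hY hY' h) with h1 | ⟨rfl, rfl⟩
  · exact h1
  · exfalso
    have h2 := h 2 (by omega)
    have h3 := h 3 (by omega)
    simp only [mstr, if_true, if_false, lt_irrefl, show ¬ (3 < 2) by omega,
      show ¬ (3 = 2) by omega] at h2 h3
    by_cases hq : 4 ≤ q
    · have h3q : 3 ≤ q := by omega
      simp only [hq, h3q, decide_true, Bool.true_and, if_true] at h2 h3
      exact hcol (Prod.ext h2 h3)
    · simp only [hq, if_false, eps] at h3
      have := decide_eq_decide.1 h3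
      omega

theorem m_s (hm : 1 ≤ m) (hR : 4 + 3 * m ≤ R) (hPm : P = 2 ^ m) {i j i' j' q : ℕ} {u v : Bool}
    (hi : i < P) (hj : j < P) (hi' : i' < P) (hj' : j' < P) (hij : i ≠ j)
    (h : ∀ r < R, mstr m u v (eps i j) i (yy P i j) q r =
      sstr m (eps i' j') (yy P i' j') q r) : q < 2 ∧ i' = i ∧ j' = j := by
  have hPP : (2 : ℕ) ^ (2 * m) = P * P := by rw [hPm]; ring
  have hY : yy P i j < 2 ^ (2 * m) := by
    rw [hPP]; exact plt (lt_of_le_of_lt (min_le_left _ _) hi) (max_lt hi hj)
  have hY' : yy P i' j' < 2 ^ (2 * m) := by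
    rw [hPP]; exact plt (lt_of_le_of_lt (min_le_left _ _) hi') (max_lt hi' hj')
  have hYY : yy P i j = yy P i' j' := by
    refine eq_of_testBit_lt hY hY' fun r hr => ?_
    have := h (r + (4 + m)) (by omega)
    unfold mstr sstr at this
    have e0 : ¬ (r + (4 + m) = 0) := by omega
    have e0' : ¬ (r + (4 + m) = 1) := by omega
    have e1 : ¬ (r + (4 + m) < 2) := by omega
    have e2 : ¬ (r + (4 + m) = 2) := by omega
    have e3 : ¬ (r + (4 + m) = 3) := by omega
    have e4 : ¬ (r + (4 + m) < 4 + m) := by omega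
    have e5 : ¬ (r + (4 + m) = 4) := by omega
    simp only [e0, e0', e1, e2, e3, e4, e5, if_false, Nat.add_sub_cancel] at this
    exact this
  have h1 := h 1 (by omega)
  simp only [mstr, sstr, show (1 < 2) by omega, if_true, one_ne_zero, if_false] at h1
  have hq : q < 2 := by
    by_contra hq
    simp [show 2 ≤ q by omega] at h1
  refine ⟨hq, ?_⟩
  rcases yy_inj hi hj hi' hj' hYY with h2 | ⟨rfl, rfl⟩
  · exact h2
  · exfalso
    have h3 := h 3 (by omega)
    simp only [mstr, sstr, if_true, if_false, show ¬ (3 < 2) by omega,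
      show ¬ (3 = 2) by omega, show ¬ (3 = 0) by omega, show ¬ (3 = 1) by omega,
      show ¬ (4 ≤ q) by omega, show q ≤ 3 by omega, decide_true, Bool.true_and, eps] at h3
    have := decide_eq_decide.1 h3
    omega

theorem s_s (hm : 1 ≤ m) (hR : 4 + 3 * m ≤ R) (hPm : P = 2 ^ m) {i j i' j' q : ℕ}
    (hi : i < P) (hj : j < P) (hi' : i' < P) (hj' : j' < P) (hij : i ≠ j)
    (h : ∀ r < R, sstr m (eps i j) (yy P i j) q r = sstr m (eps i' j') (yy P i' j') q r) :
    (i' = i ∧ j' = j) ∨ (i' = j ∧ j' = i ∧ q = 4) := by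
  have hPP : (2 : ℕ) ^ (2 * m) = P * P := by rw [hPm]; ring
  have hY : yy P i j < 2 ^ (2 * m) := by
    rw [hPP]; exact plt (lt_of_le_of_lt (min_le_left _ _) hi) (max_lt hi hj)
  have hY' : yy P i' j' < 2 ^ (2 * m) := by
    rw [hPP]; exact plt (lt_of_le_of_lt (min_le_left _ _) hi') (max_lt hi' hj')
  have hYY : yy P i j = yy P i' j' := by
    refine eq_of_testBit_lt hY hY' fun r hr => ?_
    have := h (r + (4 + m)) (by omega)
    unfold sstr at this
    have e0 : ¬ (r + (4 + m) = 0) := by omega
    have e0' : ¬ (r + (4 + m) = 1) := by omega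
    have e2 : ¬ (r + (4 + m) = 2) := by omega
    have e3 : ¬ (r + (4 + m) = 3) := by omega
    have e4 : ¬ (r + (4 + m) < 4 + m) := by omega
    have e5 : ¬ (r + (4 + m) = 4) := by omega
    simp only [e0, e0', e2, e3, e4, e5, if_false, Nat.add_sub_cancel] at this
    exact this
  rcases yy_inj hi hj hi' hj' hYY with h2 | ⟨rfl, rfl⟩
  · exact Or.inl h2
  · right
    refine ⟨rfl, rfl, ?_⟩
    have h3 := h 3 (by omega)
    have h4 := h 4 (by omega)
    simp only [sstr, if_true, if_false, show ¬ (3 = 2) by omega, show ¬ (3 = 0) by omega,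
      show ¬ (3 = 1) by omega, show ¬ (4 = 2) by omega, show ¬ (4 = 0) by omega,
      show ¬ (4 = 1) by omega, show ¬ (4 = 3) by omega, eps] at h3 h4
    by_contra hq
    by_cases h5 : q ≤ 3
    · simp only [h5, decide_true, Bool.true_and] at h3
      have := decide_eq_decide.1 h3
      omega
    · have h6 : 5 ≤ q := by omega
      simp only [h6, decide_true, Bool.true_and] at h4
      have := decide_eq_decide.1 h4
      omega

theorem m_t (hm : 1 ≤ m) (hR : 4 + 3 * m ≤ R) (hPm : P = 2 ^ m) {i Y i' c' : ℕ}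
    {u v e u' v' : Bool} (hi : i < P) (hi' : i' < P) (hY : Y < P * P) (hc' : c' < P * P)
    (h : ∀ r < R, mstr m u v e i Y (m + 4) r = tstr m u' v' i' c' 0 r) : i' = i ∧ c' = Y := by
  have hPP : (2 : ℕ) ^ (2 * m) = P * P := by rw [hPm]; ring
  constructor
  · symm
    rw [hPm] at hi hi'
    refine eq_of_testBit_lt hi hi' fun r hr => ?_
    have := h (r + 4) (by omega)
    unfold mstr tstr at this
    simp only [show ¬ (r + 4 < 2) by omega, show ¬ (r + 4 = 2) by omega,
      show ¬ (r + 4 = 3) by omega, show r + 4 < 4 + m by omega, show r + 4 + 1 ≤ m + 4 by omega,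
      if_true, if_false, decide_true, Bool.true_and, Nat.add_sub_cancel] at this
    exact this
  · symm
    refine eq_of_testBit_lt (by rw [hPP]; exact hY) (by rw [hPP]; exact hc') fun r hr => ?_
    have := h (r + (4 + m)) (by omega)
    unfold mstr tstr at this
    simp only [show ¬ (r + (4 + m) < 2) by omega, show ¬ (r + (4 + m) = 2) by omega,
      show ¬ (r + (4 + m) = 3) by omega, show ¬ (r + (4 + m) < 4 + m) by omega,
      if_false, Nat.add_zero, Nat.add_sub_cancel] at this
    exact this

theorem t_t {q : ℕ} (hR : 4 + 3 * m + q ≤ R) (hPm : P = 2 ^ m) {i c i' c' : ℕ}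
    {u v u' v' : Bool} (hi : i < P) (hi' : i' < P) (hc : c < P * P) (hc' : c' < P * P)
    (h : ∀ r < R, tstr m u v i c q r = tstr m u' v' i' c' q r) : i' = i ∧ c' = c := by
  have hPP : (2 : ℕ) ^ (2 * m) = P * P := by rw [hPm]; ring
  constructor
  · symm
    rw [hPm] at hi hi'
    refine eq_of_testBit_lt hi hi' fun r hr => ?_
    have := h (r + 4) (by omega)
    unfold tstr at this
    simp only [show ¬ (r + 4 < 2) by omega, show ¬ (r + 4 = 2) by omega,
      show ¬ (r + 4 = 3) by omega, show r + 4 < 4 + m by omega,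
      if_true, if_false, Nat.add_sub_cancel] at this
    exact this
  · symm
    refine eq_of_testBit_lt (by rw [hPP]; exact hc) (by rw [hPP]; exact hc') fun r hr => ?_
    have := h (r + (4 + m + q)) (by omega)
    unfold tstr at this
    simp only [show ¬ (r + (4 + m + q) < 2) by omega, show ¬ (r + (4 + m + q) = 2) by omega,
      show ¬ (r + (4 + m + q) = 3) by omega, show ¬ (r + (4 + m + q) < 4 + m) by omega,
      show ¬ (r + (4 + m + q) < 4 + m + q) by omega, if_false, Nat.add_sub_cancel] at this
    exact this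

/-! ### coincidences and steps -/

theorem m_step {u v e : Bool} {i Y p r : ℕ} (hr : r ≠ p) :
    mstr m u v e i Y p r = mstr m u v e i Y (p + 1) r := by
  unfold mstr
  by_cases h1 : r < 2
  · simp [h1]
  · by_cases h2 : r = 2
    · subst h2
      have : (3 ≤ p) ↔ (3 ≤ p + 1) := by omega
      simp [this]
    · by_cases h3 : r = 3
      · subst h3
        have : (4 ≤ p) ↔ (4 ≤ p + 1) := by omega
        simp [this]
      · by_cases h4 : r < 4 + m
        · have : (r + 1 ≤ p) ↔ (r + 1 ≤ p + 1) := by omega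
          simp only [h1, h2, h3, h4, this, if_true, if_false]
        · simp only [h1, h2, h3, h4, if_false]

theorem s_step {e : Bool} {Y p r : ℕ} (hp : 1 ≤ p) (hr : r ≠ p) :
    sstr m e Y p r = sstr m e Y (p + 1) r := by
  unfold sstr
  by_cases h0 : r = 0
  · simp [h0]
  · by_cases h1 : r = 1
    · subst h1
      have : (2 ≤ p) ↔ (2 ≤ p + 1) := by omega
      simp [this]
    · by_cases h2 : r = 2
      · simp [h2]
      · by_cases h3 : r = 3
        · subst h3
          have : (p ≤ 3) ↔ (p + 1 ≤ 3) := by omega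
          simp [this]
        · by_cases h4 : r = 4
          · subst h4
            have : (5 ≤ p) ↔ (5 ≤ p + 1) := by omega
            simp [this]
          · simp only [h0, h1, h2, h3, h4, if_false]

theorem t_step {u v : Bool} {i c p r : ℕ} (hr : r ≠ 4 + m + p) :
    tstr m u v i c p r = tstr m u v i (c / 2) (p + 1) r := by
  unfold tstr
  by_cases h1 : r < 2
  · simp [h1]
  · by_cases h2 : r = 2
    · simp [h2]
    · by_cases h3 : r = 3
      · simp [h3]
      · by_cases h4 : r < 4 + m
        · simp [h1, h2, h3, h4]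
        · by_cases h5 : r < 4 + m + p
          · have h6 : r < 4 + m + (p + 1) := by omega
            simp [h1, h2, h3, h4, h5, h6]
          · have h6 : ¬ r < 4 + m + (p + 1) := by omega
            simp only [h1, h2, h3, h4, h5, h6, if_false]
            obtain ⟨d, rfl⟩ : ∃ d, r = 4 + m + (p + 1) + d := ⟨r - (4 + m + (p + 1)), by omega⟩
            have e1 : 4 + m + (p + 1) + d - (4 + m + p) = d + 1 := by omega
            have e2 : 4 + m + (p + 1) + d - (4 + m + (p + 1)) = d := by omega
            rw [e1, e2, Nat.testBit_succ]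

theorem m_eq_s (hm : 1 ≤ m) {u v e : Bool} {i Y r : ℕ} :
    mstr m u v e i Y 1 r = sstr m e Y 1 r := by
  unfold mstr sstr
  by_cases h0 : r = 0
  · simp [h0]
  · by_cases h1 : r = 1
    · simp [h1]
    · by_cases h2 : r = 2
      · simp [h2]
      · by_cases h3 : r = 3
        · simp [h3]
        · by_cases h4 : r = 4
          · subst h4
            have : 4 < 4 + m := by omega
            simp [this]
          · by_cases h5 : r < 4 + m
            · have h6 : ¬ r < 2 := by omega
              simp [h0, h1, h2, h3, h4, h5, h6]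
            · have h6 : ¬ r < 2 := by omega
              simp only [h0, h1, h2, h3, h4, h5, h6, if_false]

theorem s_eq_s {e e' : Bool} {Y r : ℕ} : sstr m e Y 4 r = sstr m e' Y 4 r := by
  unfold sstr
  simp

theorem m_eq_t {u v e : Bool} {i Y r : ℕ} :
    mstr m u v e i Y (m + 4) r = tstr m u v i Y 0 r := by
  unfold mstr tstr
  by_cases h1 : r < 2
  · simp [h1]
  · by_cases h2 : r = 2
    · subst h2
      simp
    · by_cases h3 : r = 3
      · simp [h3]
      · by_cases h4 : r < 4 + m
        · have : r + 1 ≤ m + 4 := by omega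
          simp [h1, h2, h3, h4, this]
        · simp [h1, h2, h3, h4]

end

end Pool.MP_868529_lc
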